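import Mathlib

/-!
# Codings of an irrational rotation: few words, and few translates with private points
-/

set_option autoImplicit false

namespace Pool.Agent.Q68.HY

open Filter Topology

/-- The coding of the orbit of `z` under the rotation by `β` modulo `2`. -/
noncomputable def code (β z : ℝ) (i : ℕ) : Bool := decide (Even ⌊z + i * β⌋)

theorem code_add (β z : ℝ) (i j : ℕ) : code β z (i + j) = code β (z + i * β) j := by
  unfold code
  congr 3
  push_cast
  ring

/-- the coding depends on `z` modulo `2` only -/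
theorem exists_mem_Ico (β z : ℝ) : ∃ z' ∈ Set.Ico (0 : ℝ) 2, code β z' = code β z := by
  refine ⟨z - 2 * ⌊z / 2⌋, ⟨?_, ?_⟩, ?_⟩
  · have := Int.floor_le (z / 2); linarith
  · have := Int.lt_floor_add_one (z / 2); linarith
  · funext i
    unfold code
    have : z - 2 * (⌊z / 2⌋ : ℝ) + i * β = z + i * β - ((2 * ⌊z / 2⌋ : ℤ) : ℝ) := by
      push_cast; ring
    rw [this, Int.floor_sub_intCast]
    congr 1
    apply propext
    rw [Int.even_sub]
    simp

/-- the sum of the integer parts over a window -/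
noncomputable def gsum (β : ℝ) (N : ℕ) (z : ℝ) : ℤ := ∑ i ∈ Finset.range N, (⌊z + i * β⌋ - ⌊(i : ℝ) * β⌋)

theorem gsum_nonneg (β : ℝ) (N : ℕ) {z : ℝ} (hz : 0 ≤ z) : 0 ≤ gsum β N z := by
  refine Finset.sum_nonneg fun i _ => ?_
  have := Int.floor_le_floor (show (i : ℝ) * β ≤ z + i * β by linarith)
  omega

theorem gsum_le (β : ℝ) (N : ℕ) {z : ℝ} (hz : z < 2) : gsum β N z ≤ 2 * N := by
  have : gsum β N z ≤ ∑ _i ∈ Finset.range N, 2 := by
    refine Finset.sum_le_sum fun i _ => ?_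
    have := Int.floor_le_floor (show z + i * β ≤ (i : ℝ) * β + 2 by linarith)
    rw [show ((i : ℝ) * β + 2) = (i : ℝ) * β + ((2 : ℤ) : ℝ) by norm_num, Int.floor_add_intCast] at this
    omega
  simpa [mul_comm] using this

theorem code_eq_of_gsum {β : ℝ} {N : ℕ} {z z' : ℝ} (h : gsum β N z = gsum β N z') :
    ∀ i < N, code β z i = code β z' i := by
  wlog hz : z ≤ z' generalizing z z' with H
  · exact fun i hi => (H h.symm (le_of_not_ge hz) i hi).symm
  have h1 : ∀ i ∈ Finset.range N, ⌊z + i * β⌋ - ⌊(i : ℝ) * β⌋ ≤ ⌊z' + i * β⌋ - ⌊(i : ℝ) * β⌋ := by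
    intro i _
    have := Int.floor_le_floor (show z + i * β ≤ z' + i * β by linarith)
    omega
  have h2 := (Finset.sum_eq_sum_iff_of_le h1).1 h
  intro i hi
  have h3 := h2 i (Finset.mem_range.2 hi)
  have h4 : ⌊z + i * β⌋ = ⌊z' + i * β⌋ := by omega
  unfold code
  rw [h4]

/-- two codings of length `N` which differ at the last letter only -/
theorem exists_branch {β : ℝ} (hβ : Irrational β) (N : ℕ) :
    ∃ z z' : ℝ, (∀ i < N, code β z i = code β z' i) ∧ code β z N ≠ code β z' N := by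
  have h1 : ∀ i < N, ∀ᶠ δ in 𝓝[>] (0 : ℝ), ⌊((i : ℝ) - N) * β - δ⌋ = ⌊((i : ℝ) - N) * β⌋ := by
    intro i hi
    have hne : ((i : ℝ) - N) * β ≠ ⌊((i : ℝ) - N) * β⌋ := by
      have h2 : Irrational (((((i : ℤ) - N : ℤ)) : ℝ) * β) := by
        apply hβ.intCast_mul
        omega
      push_cast at h2
      exact h2.ne_int _
    have hpos : 0 < ((i : ℝ) - N) * β - ⌊((i : ℝ) - N) * β⌋ :=
      sub_pos.2 (lt_of_le_of_ne (Int.floor_le _) (Ne.symm hne))
    have h3 : ∀ᶠ δ in 𝓝[>] (0 : ℝ), δ < ((i : ℝ) - N) * β - ⌊((i : ℝ) - N) * β⌋ :=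
      (eventually_lt_nhds hpos).filter_mono nhdsWithin_le_nhds
    filter_upwards [h3, self_mem_nhdsWithin] with δ h4 h5
    have h5' : 0 < δ := h5
    rw [Int.floor_eq_iff]
    constructor
    · linarith
    · have := Int.lt_floor_add_one (((i : ℝ) - N) * β)
      linarith
  have h2 : ∀ᶠ δ in 𝓝[>] (0 : ℝ), ∀ i ∈ Finset.range N,
      ⌊((i : ℝ) - N) * β - δ⌋ = ⌊((i : ℝ) - N) * β⌋ := by
    rw [Filter.eventually_all_finset]
    exact fun i hi => h1 i (Finset.mem_range.1 hi)
  have h3 : ∀ᶠ δ in 𝓝[>] (0 : ℝ), δ < 1 :=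
    (eventually_lt_nhds one_pos).filter_mono nhdsWithin_le_nhds
  obtain ⟨δ, hδ, hδ1, hδ0⟩ := (h2.and (h3.and self_mem_nhdsWithin)).exists
  have hδ0' : 0 < δ := hδ0
  refine ⟨-(N * β), -(N * β) - δ, fun i hi => ?_, ?_⟩
  · have := hδ i (Finset.mem_range.2 hi)
    unfold code
    rw [show -((N : ℝ) * β) + i * β = ((i : ℝ) - N) * β by ring,
      show -((N : ℝ) * β) - δ + i * β = ((i : ℝ) - N) * β - δ by ring, this]
  · unfold code
    rw [show -((N : ℝ) * β) + N * β = 0 by ring, show -((N : ℝ) * β) - δ + N * β = -δ by ring]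
    have h4 : ⌊-δ⌋ = -1 := by
      rw [Int.floor_eq_iff]
      push_cast
      constructor <;> linarith
    rw [h4]
    simp

/-- a positive lower bound for the positive differences of break points -/
theorem exists_gap {β : ℝ} (hβ : Irrational β) (m : ℕ) : ∃ l : ℝ, 0 < l ∧ l ≤ 1 ∧
    ∀ (i j : ℕ) (k : ℤ), i < m → j < m → 0 < (k : ℝ) + ((i : ℝ) - j) * β →
      l ≤ (k : ℝ) + ((i : ℝ) - j) * β := by
  let f : ℕ × ℕ → ℝ := fun p => if p.1 = p.2 then 1 else Int.fract (((p.1 : ℝ) - p.2) * β)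
  let s : Finset (ℕ × ℕ) := insert (0, 0) (Finset.range m ×ˢ Finset.range m)
  obtain ⟨p, hp, hmin⟩ := s.exists_min_image f ⟨(0, 0), Finset.mem_insert_self _ _⟩
  have hfpos : ∀ q, 0 < f q := by
    intro q
    by_cases hq : q.1 = q.2
    · simp [f, hq]
    · simp only [f, if_neg hq]
      have h2 : Irrational (((((q.1 : ℤ) - q.2 : ℤ)) : ℝ) * β) := by
        apply hβ.intCast_mul
        intro h; apply hq; omega
      push_cast at h2
      refine lt_of_le_of_ne (Int.fract_nonneg _) fun h3 => ?_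
      have h4 := Int.self_sub_floor (((q.1 : ℝ) - q.2) * β)
      rw [← h3, sub_eq_zero] at h4
      exact h2.ne_int _ h4
  refine ⟨f p, hfpos p, ?_, ?_⟩
  · have := hmin (0, 0) (Finset.mem_insert_self _ _)
    simpa [f] using this
  · intro i j k hi hj hpos
    refine (hmin (i, j) (Finset.mem_insert_of_mem (by simp [hi, hj]))).trans ?_
    by_cases hij : i = j
    · subst hij
      simp only [f, if_true]
      rw [sub_self, zero_mul, add_zero] at hpos ⊢
      have : 0 < k := by exact_mod_cast hpos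
      exact_mod_cast this
    · simp only [f, if_neg hij]
      have h1 : Int.fract ((k : ℝ) + ((i : ℝ) - j) * β) = Int.fract (((i : ℝ) - j) * β) :=
        Int.fract_intCast_add _ _
      rw [← h1]
      have h2 : (0 : ℝ) ≤ ⌊(k : ℝ) + ((i : ℝ) - j) * β⌋ := by
        exact_mod_cast Int.floor_nonneg.2 hpos.le
      have h3 := Int.self_sub_floor ((k : ℝ) + ((i : ℝ) - j) * β)
      linarith

/-- a break point between two points with different codings -/
theorem exists_break {β u v : ℝ} {i : ℕ} (huv : u ≤ v) (h : code β u i ≠ code β v i) :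
    ∃ k : ℤ, u < (k : ℝ) - i * β ∧ (k : ℝ) - i * β ≤ v := by
  have h1 : ⌊u + i * β⌋ ≠ ⌊v + i * β⌋ := by
    intro h2; apply h; unfold code; rw [h2]
  have h2 : ⌊u + i * β⌋ < ⌊v + i * β⌋ :=
    lt_of_le_of_ne (Int.floor_le_floor (by linarith)) h1
  refine ⟨⌊v + i * β⌋, ?_, ?_⟩
  · have := Int.floor_lt.1 h2
    linarith
  · have := Int.floor_le (v + i * β)
    linarith

/-- Points `z j`, `j ∈ J`, such that the word `w` occurs in the coding of `z j` at the place `j`, but
not at the other places of `J`: there are few of them. -/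
theorem card_le {β : ℝ} (hβ : Irrational β) (m : ℕ) : ∃ D : ℕ, ∀ (J : Finset ℕ)
    (z : ℕ → ℝ) (w : ℕ → Bool), (∀ j ∈ J, z j ∈ Set.Ico (0 : ℝ) 2) →
    (∀ j ∈ J, ∀ i < m, code β (z j) (j + i) = w i) →
    (∀ j ∈ J, ∀ j' ∈ J, j' ≠ j → ∃ i < m, code β (z j) (j' + i) ≠ w i) → J.card ≤ D := by
  obtain ⟨l, hl0, hl1, hl⟩ := exists_gap hβ m
  obtain ⟨K, hK⟩ := exists_nat_gt (1 / l)
  have hK0 : 0 < K := by
    have : (0 : ℝ) < K := lt_trans (by positivity) hK
    exact_mod_cast this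
  refine ⟨(2 * K) * 2, fun J z w hz hw hne => ?_⟩
  by_contra hJ
  push Not at hJ
  -- three points in one cell
  have hmaps : ∀ j ∈ J, ⌊z j * K⌋₊ ∈ Finset.range (2 * K) := by
    intro j hj
    obtain ⟨h0, h2⟩ := hz j hj
    rw [Finset.mem_range, Nat.floor_lt (by positivity)]
    push_cast
    have : (0 : ℝ) < K := by exact_mod_cast hK0
    nlinarith
  obtain ⟨c, -, hc⟩ := Finset.exists_lt_card_fiber_of_mul_lt_card_of_maps_to hmaps
    (n := 2) (by rw [Finset.card_range]; exact hJ)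
  set F := J.filter fun j => ⌊z j * K⌋₊ = c with hF
  have hFne : F.Nonempty := by rw [← Finset.card_pos]; omega
  obtain ⟨j1, hj1, hmin⟩ := F.exists_min_image z hFne
  obtain ⟨j3, hj3, hmax⟩ := F.exists_max_image z hFne
  obtain ⟨j2, hj2, hj21, hj23⟩ : ∃ j2 ∈ F, j2 ≠ j1 ∧ j2 ≠ j3 := by
    by_contra hcon
    push Not at hcon
    have : F ⊆ {j1, j3} := by
      intro j hj
      rw [Finset.mem_insert, Finset.mem_singleton]
      by_cases h : j = j1
      · exact Or.inl h
      · exact Or.inr (hcon j hj h)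
    have := (Finset.card_le_card this).trans Finset.card_le_two
    omega
  have hcell : ∀ j ∈ F, (c : ℝ) ≤ z j * K ∧ z j * K < c + 1 := by
    intro j hj
    obtain ⟨hjJ, hjc⟩ := Finset.mem_filter.1 hj
    have h0 : 0 ≤ z j * K := mul_nonneg (hz j hjJ).1 (Nat.cast_nonneg _)
    rw [← hjc]
    exact ⟨Nat.floor_le h0, Nat.lt_floor_add_one _⟩
  have hclose : z j3 - z j1 < l := by
    have h1 := (hcell j1 hj1).1
    have h3 := (hcell j3 hj3).2
    have hKr : (0 : ℝ) < K := by exact_mod_cast hK0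
    have h4 : (z j3 - z j1) * K < 1 := by linarith
    have h5 : 1 < l * K := by
      rw [div_lt_iff₀ hl0] at hK
      linarith
    by_contra h6
    push Not at h6
    nlinarith
  have hJ1 := (Finset.mem_filter.1 hj1).1
  have hJ2 := (Finset.mem_filter.1 hj2).1
  have hJ3 := (Finset.mem_filter.1 hj3).1
  have hz12 := hmin j2 hj2
  have hz23 := hmax j2 hj2
  obtain ⟨i1, hi1, hb1⟩ := hne j1 hJ1 j2 hJ2 hj21
  obtain ⟨i3, hi3, hb3⟩ := hne j3 hJ3 j2 hJ2 hj23
  rw [← hw j2 hJ2 i1 hi1, code_add, code_add] at hb1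
  rw [← hw j2 hJ2 i3 hi3, code_add, code_add] at hb3
  obtain ⟨k1, hk1, hk1'⟩ := exists_break (by linarith) hb1
  obtain ⟨k3, hk3, hk3'⟩ := exists_break (by linarith) hb3.symm
  have h1 : 0 < ((k3 - k1 : ℤ) : ℝ) + ((i1 : ℝ) - i3) * β := by
    push_cast
    linarith
  have h2 := hl i1 i3 (k3 - k1) hi1 hi3 h1
  push_cast at h2
  linarith

end Pool.Agent.Q68.HY
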