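import Mathlib

/-!
# Generalized entropy and the hyperspace map: definitions
-/

set_option autoImplicit false

namespace Pool.Agent.Q68.HY

open Filter Topology TopologicalSpace
open scoped NNReal

/-! ## Orders of growth -/

/-- A non-decreasing sequence `a : ℕ → [0, ∞)`, with indices `n = 1, 2, …`. -/
structure GrowthSeq where
  /-- the sequence -/
  toFun : ℕ+ → ℝ≥0
  mono : Monotone toFun

/-- `a ≤ b` means `a n ≤ C * b n` for all `n`, for some constant `C > 0`. -/
instance : Preorder GrowthSeq where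
  le a b := ∃ C : ℝ≥0, 0 < C ∧ ∀ n, a.toFun n ≤ C * b.toFun n
  le_refl a := ⟨1, one_pos, fun n => by rw [one_mul]⟩
  le_trans a b c := by
    rintro ⟨C, hC, h⟩ ⟨D, hD, h'⟩
    refine ⟨C * D, mul_pos hC hD, fun n => (h n).trans ?_⟩
    rw [mul_assoc]
    exact mul_le_mul_right (h' n) C

/-- The orders of growth: classes of non-decreasing sequences modulo `a ≤ b ≤ a`, with the induced
partial order. -/
abbrev Growth := Antisymmetrization GrowthSeq (· ≤ ·)

/-- The class of a sequence, in the Dedekind-MacNeille completion of the orders of growth. -/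
def GrowthSeq.cls (a : GrowthSeq) : DedekindCut Growth :=
  DedekindCut.principal (toAntisymmetrization (· ≤ ·) a)

/-- The sequence `a n = n`. -/
def linearSeq : GrowthSeq := ⟨fun n => (n : ℕ), fun m n h => by
  show ((m : ℕ) : ℝ≥0) ≤ ((n : ℕ) : ℝ≥0)
  exact_mod_cast h⟩

/-! ## Spanning numbers -/

section
variable {X : Type} [PseudoMetricSpace X]

/-- `E` is `(n, ε)`-spanning for `T`: every `x` has some `y ∈ E` with
`max_{i < n} d (T ^ i x) (T ^ i y) < ε`. -/
def IsSpanning (T : X → X) (n : ℕ) (ε : ℝ) (E : Finset X) : Prop :=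
  ∀ x, ∃ y ∈ E, ∀ i < n, dist (T^[i] x) (T^[i] y) < ε

/-- The least cardinality of an `(n, ε)`-spanning set. -/
noncomputable def Span (T : X → X) (n : ℕ) (ε : ℝ) : ℕ :=
  sInf {k | ∃ E : Finset X, IsSpanning T n ε E ∧ E.card = k}

theorem exists_isSpanning [CompactSpace X] {T : X → X} (hT : Continuous T) (n : ℕ) {ε : ℝ}
    (hε : 0 < ε) : ∃ E : Finset X, IsSpanning T n ε E := by
  have hopen : ∀ y : X, IsOpen {x | ∀ i < n, dist (T^[i] x) (T^[i] y) < ε} := by
    intro y
    have : {x | ∀ i < n, dist (T^[i] x) (T^[i] y) < ε} =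
        ⋂ i ∈ Finset.range n, {x | dist (T^[i] x) (T^[i] y) < ε} := by
      ext x; simp
    rw [this]
    exact isOpen_biInter_finset fun i _ => isOpen_lt ((hT.iterate i).dist continuous_const)
      continuous_const
  obtain ⟨E, hE⟩ := isCompact_univ.elim_finite_subcover
    (fun y : X => {x | ∀ i < n, dist (T^[i] x) (T^[i] y) < ε}) hopen
    (fun x _ => Set.mem_iUnion.2 ⟨x, fun i _ => by rw [dist_self]; exact hε⟩)
  refine ⟨E, fun x => ?_⟩
  obtain ⟨y, hy, h⟩ := Set.mem_iUnion₂.1 (hE (Set.mem_univ x))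
  exact ⟨y, hy, h⟩

theorem span_le {T : X → X} {n : ℕ} {ε : ℝ} {E : Finset X} (h : IsSpanning T n ε E) :
    Span T n ε ≤ E.card := Nat.sInf_le ⟨E, h, rfl⟩

theorem exists_span [CompactSpace X] {T : X → X} (hT : Continuous T) (n : ℕ) {ε : ℝ}
    (hε : 0 < ε) : ∃ E : Finset X, IsSpanning T n ε E ∧ E.card = Span T n ε := by
  obtain ⟨E, hE⟩ := exists_isSpanning hT n hε
  exact Nat.sInf_mem (s := {k | ∃ E : Finset X, IsSpanning T n ε E ∧ E.card = k}) ⟨_, E, hE, rfl⟩

/-- The sequence `n ↦ Span (T, n, ε)`. -/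
noncomputable def spanSeq [CompactSpace X] {T : X → X} (hT : Continuous T) {ε : ℝ} (hε : 0 < ε) :
    GrowthSeq where
  toFun n := Span T n ε
  mono m n h := by
    obtain ⟨E, hE, hc⟩ := exists_span hT n hε
    have h1 : Span T m ε ≤ E.card := span_le fun x => by
      obtain ⟨y, hy, hxy⟩ := hE x
      exact ⟨y, hy, fun i hi => hxy i (lt_of_lt_of_le hi (by exact_mod_cast h))⟩
    rw [hc] at h1
    show ((Span T m ε : ℕ) : ℝ≥0) ≤ ((Span T n ε : ℕ) : ℝ≥0)
    exact_mod_cast h1

/-- The generalized entropy `o(T) = sup {[Span (T, n, ε)] : ε > 0}`, in the Dedekind-MacNeille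
completion of the orders of growth. -/
noncomputable def orderOfGrowth [CompactSpace X] {T : X → X} (hT : Continuous T) :
    DedekindCut Growth :=
  ⨆ (ε : ℝ) (hε : 0 < ε), (spanSeq hT hε).cls

/-- The topological entropy (Bowen's formula). -/
noncomputable def entropy (T : X → X) : EReal :=
  ⨆ (ε : ℝ) (_ : 0 < ε), limsup (fun n : ℕ => ((Real.log (Span T n ε) / n : ℝ) : EReal)) atTop

end

end Pool.Agent.Q68.HY
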