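import Pool.Agent.Q68.HY.Space

/-!
# The hyperspace map of the subshift has entropy zero
-/

set_option autoImplicit false

namespace Pool.Agent.Q68.HY

open Filter Topology TopologicalSpace

theorem sum_choose_le (n D : ℕ) : ∑ k ∈ Finset.Iic D, n.choose k ≤ (n + 1) ^ D := by
  rw [add_pow]
  have h : Finset.Iic D = Finset.range (D + 1) := by ext; simp [Nat.lt_succ_iff]
  rw [h]
  refine Finset.sum_le_sum fun k hk => ?_
  have hk' : k ≤ D := by
    have := Finset.mem_range.1 hk
    omega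
  calc n.choose k ≤ n ^ k := Nat.choose_le_pow n k
    _ ≤ n ^ k * 1 ^ (D - k) * D.choose k := by
      rw [one_pow, mul_one]
      exact Nat.le_mul_of_pos_right _ (Nat.choose_pos hk')

variable {β : ℝ}

open Classical in
/-- the places at which the word `w` occurs in some point of `A` -/
noncomputable def occ (n m : ℕ) (A : Set (Sp β)) (w : Fin m → Bool) : Finset (Fin n) :=
  Finset.univ.filter fun i => ∃ a ∈ A, ∀ j : Fin m, a.1 (i + j) = w j

theorem mem_occ {n m : ℕ} {A : Set (Sp β)} {w : Fin m → Bool} {i : Fin n} :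
    i ∈ occ n m A w ↔ ∃ a ∈ A, ∀ j : Fin m, a.1 (i + j) = w j := by
  classical
  unfold occ
  rw [Finset.mem_filter]
  exact ⟨fun h => h.2, fun h => ⟨Finset.mem_univ _, h⟩⟩

open Classical in
/-- the family of all the sets `occ A w` -/
noncomputable def occFam (β : ℝ) (n m : ℕ) (w : Fin m → Bool) : Finset (Finset (Fin n)) :=
  Finset.univ.filter fun S => ∃ A : Set (Sp β), occ n m A w = S

theorem occ_mem (n m : ℕ) (A : Set (Sp β)) (w : Fin m → Bool) : occ n m A w ∈ occFam β n m w := by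
  classical
  exact Finset.mem_filter.2 ⟨Finset.mem_univ _, A, rfl⟩

theorem shatters_card_le (hβ : Irrational β) (m : ℕ) : ∃ D : ℕ, ∀ (n : ℕ) (w : Fin m → Bool)
    (J : Finset (Fin n)), (occFam β n m w).Shatters J → J.card ≤ D := by
  classical
  obtain ⟨D, hD⟩ := card_le hβ m
  refine ⟨D, fun n w J hJ => ?_⟩
  have key : ∀ j ∈ J, ∃ z ∈ Set.Ico (0 : ℝ) 2, (∀ i : Fin m, code β z (j + i) = w i) ∧
      ∀ j' ∈ J, j' ≠ j → ∃ i : Fin m, code β z (j' + i) ≠ w i := by
    intro j hj
    obtain ⟨S, hS, hJS⟩ := hJ.exists_inter_eq_singleton hj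
    obtain ⟨-, A, rfl⟩ := Finset.mem_filter.1 hS
    have hjS : j ∈ occ n m A w := by
      have : j ∈ J ∩ occ n m A w := by rw [hJS]; exact Finset.mem_singleton_self j
      exact (Finset.mem_inter.1 this).2
    obtain ⟨a, ha, haw⟩ := mem_occ.1 hjS
    obtain ⟨z, hz, hza⟩ := exists_window' a (n + m)
    refine ⟨z, hz, fun i => ?_, fun j' hj' hne => ?_⟩
    · rw [← hza _ (by omega)]
      exact haw i
    · by_contra hcon
      push Not at hcon
      have h1 : j' ∈ occ n m A w := mem_occ.2 ⟨a, ha, fun i => by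
        rw [hza _ (by omega)]; exact hcon i⟩
      have h2 : j' ∈ J ∩ occ n m A w := Finset.mem_inter.2 ⟨hj', h1⟩
      rw [hJS, Finset.mem_singleton] at h2
      exact hne h2
  choose! z hz hzw hzne using key
  have h := hD (J.map Fin.valEmbedding) (fun k => if h : k < n then z ⟨k, h⟩ else 0)
    (fun k => if h : k < m then w ⟨k, h⟩ else false) ?_ ?_ ?_
  · rwa [Finset.card_map] at h
  · intro k hk
    obtain ⟨j, hj, rfl⟩ := Finset.mem_map.1 hk
    simpa using hz j hj
  · intro k hk i hi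
    obtain ⟨j, hj, rfl⟩ := Finset.mem_map.1 hk
    simpa [hi] using hzw j hj ⟨i, hi⟩
  · intro k hk k' hk' hne
    obtain ⟨j, hj, rfl⟩ := Finset.mem_map.1 hk
    obtain ⟨j', hj', rfl⟩ := Finset.mem_map.1 hk'
    obtain ⟨i, hi⟩ := hzne j hj j' hj' (fun h => hne (by rw [h]))
    refine ⟨i, i.2, ?_⟩
    simpa using hi

theorem card_occFam_le (hβ : Irrational β) (m : ℕ) : ∃ D : ℕ, ∀ (n : ℕ) (w : Fin m → Bool),
    (occFam β n m w).card ≤ (n + 1) ^ D := by
  classical
  obtain ⟨D, hD⟩ := shatters_card_le hβ m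
  refine ⟨D, fun n w => ?_⟩
  have h1 := Finset.card_le_card_shatterer (occFam β n m w)
  have h2 := Finset.card_shatterer_le_sum_vcDim (𝒜 := occFam β n m w)
  have h3 : (occFam β n m w).vcDim ≤ D := Finset.sup_le fun J hJ =>
    hD n w J (Finset.mem_shatterer.1 hJ)
  rw [Fintype.card_fin] at h2
  have h4 : ∑ k ∈ Finset.Iic (occFam β n m w).vcDim, n.choose k ≤ ∑ k ∈ Finset.Iic D, n.choose k :=
    Finset.sum_le_sum_of_subset (Finset.Iic_subset_Iic.2 h3)
  exact h1.trans (h2.trans (h4.trans (sum_choose_le n D)))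

/-- the hyperspace map -/
noncomputable abbrev hmap (β : ℝ) : NonemptyCompacts (Sp β) → NonemptyCompacts (Sp β) :=
  NonemptyCompacts.map (shift β) continuous_shift

theorem coe_iterate_hmap (A : NonemptyCompacts (Sp β)) (i : ℕ) :
    (((hmap β)^[i] A : NonemptyCompacts (Sp β)) : Set (Sp β)) = (shift β)^[i] '' (A : Set (Sp β)) := by
  induction i generalizing A with
  | zero => simp
  | succ i ih =>
    rw [Function.iterate_succ_apply, ih, NonemptyCompacts.coe_map, Function.iterate_succ,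
      Set.image_comp]

theorem dist_le_of_occ {n m : ℕ} {A B : NonemptyCompacts (Sp β)}
    (h : ∀ w, occ n m (A : Set (Sp β)) w = occ n m (B : Set (Sp β)) w) {i : ℕ} (hi : i < n) :
    dist ((hmap β)^[i] A) ((hmap β)^[i] B) ≤ (1 / 2) ^ m := by
  have key : ∀ A B : NonemptyCompacts (Sp β),
      (∀ w, occ n m (A : Set (Sp β)) w = occ n m (B : Set (Sp β)) w) →
      ∀ x ∈ ((hmap β)^[i] A : Set (Sp β)), ∃ y ∈ ((hmap β)^[i] B : Set (Sp β)),
        dist x y ≤ (1 / 2) ^ m := by
    intro A B h x hx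
    rw [coe_iterate_hmap] at hx
    obtain ⟨a, ha, rfl⟩ := hx
    have h1 : (⟨i, hi⟩ : Fin n) ∈ occ n m (A : Set (Sp β)) (fun j => a.1 (i + j)) :=
      mem_occ.2 ⟨a, ha, fun j => rfl⟩
    rw [h] at h1
    obtain ⟨b, hb, hab⟩ := mem_occ.1 h1
    refine ⟨(shift β)^[i] b, ?_, (dist_le_iff _ _ m).2 fun j hj => ?_⟩
    · rw [coe_iterate_hmap]
      exact ⟨b, hb, rfl⟩
    · rw [iterate_shift, iterate_shift]
      exact (hab ⟨j, hj⟩).symm
  rw [Metric.NonemptyCompacts.dist_eq]
  refine Metric.hausdorffDist_le_of_mem_dist (by positivity) (key A B h) ?_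
  intro x hx
  exact key B A (fun w => (h w).symm) x hx

theorem span_hmap_le (hβ : Irrational β) (m : ℕ) : ∃ C : ℕ, ∀ (n : ℕ) (ε : ℝ), (1 / 2) ^ m < ε →
    Span (hmap β) n ε ≤ (n + 1) ^ C := by
  classical
  obtain ⟨D, hD⟩ := card_occFam_le hβ m
  refine ⟨D * Fintype.card (Fin m → Bool), fun n ε hε => ?_⟩
  let g : ((Fin m → Bool) → Finset (Fin n)) → NonemptyCompacts (Sp β) := fun P =>
    if h : ∃ A : NonemptyCompacts (Sp β), ∀ w, occ n m (A : Set (Sp β)) w = P w then h.choose
    else {pt β 0}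
  refine (span_le (E := (Fintype.piFinset fun w => occFam β n m w).image g) fun A => ?_).trans ?_
  · have hex : ∃ B : NonemptyCompacts (Sp β), ∀ w, occ n m (B : Set (Sp β)) w =
        (fun w => occ n m (A : Set (Sp β)) w) w := ⟨A, fun w => rfl⟩
    refine ⟨g fun w => occ n m (A : Set (Sp β)) w, ?_, fun i hi => ?_⟩
    · exact Finset.mem_image_of_mem _ (Fintype.mem_piFinset.2 fun w => occ_mem n m _ w)
    · have hg : g (fun w => occ n m (A : Set (Sp β)) w) = hex.choose := dif_pos hex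
      rw [hg]
      exact lt_of_le_of_lt (dist_le_of_occ (fun w => (hex.choose_spec w).symm) hi) hε
  · refine Finset.card_image_le.trans ?_
    rw [Fintype.card_piFinset, pow_mul]
    calc ∏ w : Fin m → Bool, (occFam β n m w).card ≤ ∏ _w : Fin m → Bool, (n + 1) ^ D :=
          Finset.prod_le_prod' fun w _ => hD n w
      _ = _ := by rw [Finset.prod_const, Finset.card_univ]

theorem entropy_hmap (hβ : Irrational β) : entropy (hmap β) = 0 := by
  apply le_antisymm
  · refine iSup₂_le fun ε hε => ?_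
    obtain ⟨m, hm⟩ := exists_pow_lt_of_lt_one hε (show (1 / 2 : ℝ) < 1 by norm_num)
    obtain ⟨C, hC⟩ := span_hmap_le hβ m
    have h1 : Tendsto (fun n : ℕ => (C : ℝ) * (Real.log (n + 1) / n)) atTop (𝓝 0) := by
      have h2 := (Real.tendsto_pow_log_div_mul_add_atTop 1 (-1) 1 one_ne_zero).comp
        (tendsto_atTop_add_const_right atTop (1 : ℝ) tendsto_natCast_atTop_atTop)
      have h3 := h2.const_mul (C : ℝ)
      rw [mul_zero] at h3
      refine h3.congr fun n => ?_
      simp only [Function.comp_apply, pow_one, one_mul]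
      congr 2
      ring
    have h2 : Tendsto (fun n : ℕ => (((C : ℝ) * (Real.log (n + 1) / n) : ℝ) : EReal)) atTop (𝓝 0) := by
      have h5 := (continuous_coe_real_ereal.tendsto 0).comp h1
      rw [EReal.coe_zero] at h5
      exact h5
    rw [← h2.limsup_eq]
    refine limsup_le_limsup (Eventually.of_forall fun n => ?_)
    refine EReal.coe_le_coe_iff.2 ?_
    rw [← mul_div_assoc]
    refine div_le_div_of_nonneg_right ?_ (Nat.cast_nonneg n)
    rcases Nat.eq_zero_or_pos (Span (hmap β) n ε) with h0 | h0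
    · rw [h0, Nat.cast_zero, Real.log_zero]
      exact mul_nonneg (Nat.cast_nonneg _) (Real.log_nonneg (by linarith [Nat.cast_nonneg (α := ℝ) n]))
    · have h3 : (Span (hmap β) n ε : ℝ) ≤ ((n : ℝ) + 1) ^ C := by exact_mod_cast hC n ε hm
      have h4 := Real.log_le_log (by exact_mod_cast h0) h3
      rwa [Real.log_pow] at h4
  · refine le_trans ?_ (le_iSup₂ (f := fun (ε : ℝ) (_ : 0 < ε) =>
      limsup (fun n : ℕ => ((Real.log (Span (hmap β) n ε) / n : ℝ) : EReal)) atTop) 1 one_pos)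
    refine le_limsup_of_le (by isBoundedDefault) fun b hb => ?_
    obtain ⟨n, hn⟩ := hb.exists
    refine le_trans ?_ hn
    rw [← EReal.coe_zero]
    exact EReal.coe_le_coe_iff.2 (div_nonneg (Real.log_natCast_nonneg _) (Nat.cast_nonneg _))

end Pool.Agent.Q68.HY
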