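import Pool.Agent.Q68.HY.Defs
import Pool.Agent.Q68.HY.Code

/-!
# The subshift of the codings of a rotation
-/

set_option autoImplicit false

namespace Pool.Agent.Q68.HY

open Filter Topology TopologicalSpace
open scoped NNReal

/-- the closure of the set of the codings -/
def subshift (β : ℝ) : Set (ℕ → Bool) := closure (Set.range (code β))

/-- the subshift as a type -/
def Sp (β : ℝ) : Type := {x : ℕ → Bool // x ∈ subshift β}

variable {β : ℝ}

noncomputable instance : MetricSpace (Sp β) :=
  MetricSpace.induced (fun x : Sp β => x.1) Subtype.val_injective PiNat.metricSpace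

instance : CompactSpace (Sp β) := by
  have h : IsCompact (subshift β) := isClosed_closure.isCompact
  exact isCompact_iff_compactSpace.1 h

/-- the point with the coding of `z` -/
noncomputable def pt (β z : ℝ) : Sp β := ⟨code β z, subset_closure ⟨z, rfl⟩⟩

theorem dist_le_iff (x y : Sp β) (n : ℕ) : dist x y ≤ (1 / 2) ^ n ↔ ∀ i < n, x.1 i = y.1 i := by
  have h := PiNat.mem_cylinder_iff_dist_le (x := y.1) (y := x.1) (n := n)
  rw [PiNat.mem_cylinder_iff] at h
  exact h.symm

theorem exists_window (x : Sp β) (N : ℕ) : ∃ z : ℝ, ∀ i < N, x.1 i = code β z i := by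
  have h := mem_closure_iff.1 x.2 (PiNat.cylinder x.1 N) (PiNat.isOpen_cylinder _ _ _)
    (PiNat.self_mem_cylinder _ _)
  obtain ⟨y, hy, z, rfl⟩ := h
  exact ⟨z, fun i hi => (PiNat.mem_cylinder_iff.1 hy i hi).symm⟩

theorem exists_window' (x : Sp β) (N : ℕ) :
    ∃ z ∈ Set.Ico (0 : ℝ) 2, ∀ i < N, x.1 i = code β z i := by
  obtain ⟨z, hz⟩ := exists_window x N
  obtain ⟨z', hz', h⟩ := exists_mem_Ico β z
  exact ⟨z', hz', fun i hi => by rw [h, hz i hi]⟩

theorem shift_mem {x : ℕ → Bool} (hx : x ∈ subshift β) : (fun i => x (i + 1)) ∈ subshift β := by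
  have hc : Continuous fun (x : ℕ → Bool) (i : ℕ) => x (i + 1) :=
    continuous_pi fun i => continuous_apply (i + 1)
  refine map_mem_closure (f := fun (x : ℕ → Bool) (i : ℕ) => x (i + 1)) hc hx ?_
  rintro _ ⟨z, rfl⟩
  refine ⟨z + β, ?_⟩
  funext i
  have := code_add β z 1 i
  rw [add_comm 1 i] at this
  simpa using this.symm

/-- the shift -/
def shift (β : ℝ) (x : Sp β) : Sp β := ⟨fun i => x.1 (i + 1), shift_mem x.2⟩

theorem iterate_shift (x : Sp β) (k i : ℕ) : ((shift β)^[k] x).1 i = x.1 (k + i) := by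
  induction k generalizing x with
  | zero => simp
  | succ k ih =>
    rw [Function.iterate_succ_apply, ih]
    exact congrArg x.1 (show k + i + 1 = k + 1 + i by omega)

theorem continuous_shift : Continuous (shift β) := by
  rw [Metric.continuous_iff]
  intro x ε hε
  obtain ⟨n, hn⟩ := exists_pow_lt_of_lt_one hε (show (1 / 2 : ℝ) < 1 by norm_num)
  refine ⟨(1 / 2) ^ (n + 1), by positivity, fun y hy => lt_of_le_of_lt ?_ hn⟩
  have h := (dist_le_iff y x (n + 1)).1 hy.le
  exact (dist_le_iff _ _ n).2 fun i hi => h (i + 1) (by omega)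

/-- a finite set of points which contains all windows of length `N` -/
theorem exists_windows (β : ℝ) (N : ℕ) : ∃ E : Finset (Sp β), E.card ≤ 2 * N + 1 ∧
    ∀ x : Sp β, ∃ y ∈ E, ∀ i < N, x.1 i = y.1 i := by
  classical
  let g : ℕ → Sp β := fun k =>
    if h : ∃ z, 0 ≤ z ∧ gsum β N z = k then pt β h.choose else pt β 0
  refine ⟨(Finset.range (2 * N + 1)).image g, ?_, fun x => ?_⟩
  · exact Finset.card_image_le.trans (by rw [Finset.card_range])
  · obtain ⟨z, hz, hx⟩ := exists_window' x N
    obtain ⟨k, hk⟩ := Int.eq_ofNat_of_zero_le (gsum_nonneg β N hz.1)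
    have hk2 : k ≤ 2 * N := by
      have := gsum_le β N hz.2
      rw [hk] at this
      exact_mod_cast this
    refine ⟨g k, Finset.mem_image_of_mem _ (Finset.mem_range.2 (by omega)), fun i hi => ?_⟩
    have hex : ∃ z, 0 ≤ z ∧ gsum β N z = k := ⟨z, hz.1, hk⟩
    have hg : g k = pt β hex.choose := dif_pos hex
    rw [hg, hx i hi]
    exact code_eq_of_gsum (hk.trans hex.choose_spec.2.symm) i hi

theorem span_le_linear (n m : ℕ) {ε : ℝ} (hε : (1 / 2) ^ m < ε) :
    Span (shift β) n ε ≤ 2 * (n + m) + 1 := by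
  obtain ⟨E, hE, hw⟩ := exists_windows β (n + m)
  refine (span_le (E := E) fun x => ?_).trans hE
  obtain ⟨y, hy, hxy⟩ := hw x
  refine ⟨y, hy, fun i hi => lt_of_le_of_lt ((dist_le_iff _ _ m).2 fun j hj => ?_) hε⟩
  rw [iterate_shift, iterate_shift]
  exact hxy _ (by omega)

open Classical in
/-- the words of length `N` -/
noncomputable def words (β : ℝ) (N : ℕ) : Finset (Fin N → Bool) :=
  Finset.univ.filter fun w => ∃ z, ∀ i : Fin N, w i = code β z i

theorem le_card_words (hβ : Irrational β) (N : ℕ) : N + 1 ≤ (words β N).card := by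
  classical
  induction N with
  | zero =>
    rw [zero_add, Nat.succ_le_iff, Finset.card_pos]
    exact ⟨fun i => i.elim0, by
      rw [words, Finset.mem_filter]
      exact ⟨Finset.mem_univ _, 0, fun i => i.elim0⟩⟩
  | succ N ih =>
    let r : (Fin (N + 1) → Bool) → (Fin N → Bool) := fun w i => w i.castSucc
    have hsub : words β N ⊆ (words β (N + 1)).image r := by
      intro w hw
      obtain ⟨-, z, hz⟩ := Finset.mem_filter.1 hw
      refine Finset.mem_image.2 ⟨fun i => code β z i, ?_, ?_⟩
      · exact Finset.mem_filter.2 ⟨Finset.mem_univ _, z, fun i => rfl⟩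
      · funext i
        exact (hz i).symm
    have hlt : ((words β (N + 1)).image r).card < (words β (N + 1)).card := by
      refine lt_of_le_of_ne Finset.card_image_le fun heq => ?_
      have hinj := Finset.card_image_iff.1 heq
      obtain ⟨z, z', h1, h2⟩ := exists_branch hβ N
      have e := hinj (x₁ := fun i => code β z i) (x₂ := fun i => code β z' i)
        (Finset.mem_coe.2 (Finset.mem_filter.2 ⟨Finset.mem_univ _, z, fun i => rfl⟩))
        (Finset.mem_coe.2 (Finset.mem_filter.2 ⟨Finset.mem_univ _, z', fun i => rfl⟩))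
        (by funext i; exact h1 i i.2)
      apply h2
      simpa using congrFun e (Fin.last N)
    have := Finset.card_le_card hsub
    omega

theorem le_span (hβ : Irrational β) (n : ℕ) : n + 1 ≤ Span (shift β) n 1 := by
  classical
  obtain ⟨E, hE, hc⟩ := exists_span (T := shift β) continuous_shift n one_pos
  rw [← hc]
  refine (le_card_words hβ n).trans ?_
  let r : Sp β → (Fin n → Bool) := fun x i => x.1 i
  have hsub : words β n ⊆ E.image r := by
    intro w hw
    obtain ⟨-, z, hz⟩ := Finset.mem_filter.1 hw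
    obtain ⟨y, hy, hxy⟩ := hE (pt β z)
    refine Finset.mem_image.2 ⟨y, hy, ?_⟩
    funext i
    have h1 := hxy i i.2
    have h2 : dist ((shift β)^[i] (pt β z)) ((shift β)^[i] y) ≤ (1 / 2) ^ 1 := by
      by_contra h3
      push Not at h3
      have hne : ((shift β)^[i] (pt β z)).1 ≠ ((shift β)^[i] y).1 := by
        intro h4
        rw [Subtype.ext h4, dist_self] at h3
        exact absurd h3 (by norm_num)
      have hd : dist ((shift β)^[i] (pt β z)) ((shift β)^[i] y) =
          (1 / 2) ^ PiNat.firstDiff ((shift β)^[i] (pt β z)).1 ((shift β)^[i] y).1 :=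
        PiNat.dist_eq_of_ne hne
      rw [hd] at h1 h3
      have h5 : PiNat.firstDiff ((shift β)^[i] (pt β z)).1 ((shift β)^[i] y).1 < 1 := by
        by_contra h6
        push Not at h6
        exact absurd h3 (not_lt.2 (pow_le_pow_of_le_one (by norm_num) (by norm_num) h6))
      rw [Nat.lt_one_iff.1 h5, pow_zero] at h1
      exact lt_irrefl _ h1
    have h3 := (dist_le_iff _ _ 1).1 h2 0 Nat.one_pos
    rw [iterate_shift, iterate_shift, add_zero] at h3
    rw [hz i]
    exact h3.symm
  exact (Finset.card_le_card hsub).trans Finset.card_image_le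

/-- the shift has linear order of growth -/
theorem orderOfGrowth_shift (hβ : Irrational β) :
    orderOfGrowth (continuous_shift (β := β)) = linearSeq.cls := by
  apply le_antisymm
  · refine iSup₂_le fun ε hε => DedekindCut.principal_le_principal.2 ?_
    obtain ⟨m, hm⟩ := exists_pow_lt_of_lt_one hε (show (1 / 2 : ℝ) < 1 by norm_num)
    rw [toAntisymmetrization_le_toAntisymmetrization_iff]
    refine ⟨2 * m + 3, by positivity, fun n => ?_⟩
    show ((Span (shift β) n ε : ℕ) : ℝ≥0) ≤ (2 * (m : ℝ≥0) + 3) * ((n : ℕ) : ℝ≥0)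
    have h1 := span_le_linear (β := β) n m hm
    have h2 : 1 ≤ (n : ℕ) := n.pos
    have h3 : 2 * ((n : ℕ) + m) + 1 ≤ (2 * m + 3) * (n : ℕ) := by nlinarith
    exact_mod_cast h1.trans h3
  · refine le_trans ?_ (le_iSup₂ (f := fun (ε : ℝ) (hε : 0 < ε) =>
      (spanSeq (continuous_shift (β := β)) hε).cls) 1 one_pos)
    refine DedekindCut.principal_le_principal.2 ?_
    rw [toAntisymmetrization_le_toAntisymmetrization_iff]
    refine ⟨1, one_pos, fun n => ?_⟩
    show ((n : ℕ) : ℝ≥0) ≤ 1 * ((Span (shift β) n 1 : ℕ) : ℝ≥0)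
    rw [one_mul]
    have := le_span hβ n
    exact_mod_cast (Nat.le_succ _).trans this

end Pool.Agent.Q68.HY
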